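import Pool.Agent.Q35.TT.Two

/-!
# The semialgebraic form of Mazur's conjecture for K3 surfaces: all smooth double covers of `ℙ¹ × ℙ¹`

Let `F(x, y)` be a form of bidegree `(4, 4)` over `ℚ` such that the curve `B : F = 0` in `ℙ¹ × ℙ¹` is
smooth, and let `X` be the double cover `w² = F(x, y)` of `ℙ¹ × ℙ¹` branched along `B`, a K3 surface. We
consider the affine open subset `w² = F(1, s; 1, t)`; the other three charts are obtained by exchanging
the coordinates.

(1) The closure in `ℝ³` of the set of the rational points with `w ≠ 0` is semialgebraic over `ℚ`.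

(2) If the branch curve has only finitely many rational points (it is a curve of genus `9`, and this is
always true by Faltings's theorem, which is not used here), then the closure of the set of all rational
points is semialgebraic over `ℚ`.

(3) Mazur's conjecture on connected components holds up to a finite set and finitely many lines: there
are finite sets `E₁`, `E₂` of values of `s` and of `t` and a finite set `T` of points of the plane such
that each connected set of real points with `w ≠ 0` is contained in the closure of the set of the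
rational points, or all rational points in it have `s ∈ E₁`, `t ∈ E₂` or `(s, t) ∈ T`.

(4) The closure of the set of the values of finitely many rational functions at the rational points with
`w_j ≠ 0` (at all rational points, if the branch curves have only finitely many rational points) of
products of such surfaces and an affine space is semialgebraic over `ℚ`.

No condition is imposed on the points: by the theorem on points which are torsion in both fibrations
(`Pool.Agent.Q35.TT.tha2`) only finitely many rational points do not move along a fibre of one of the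
two fibrations in curves of genus one.
-/

set_option autoImplicit false

namespace Pool.Agent.Results.MP_42de19_nt.K3DoubleCovers

open MvPolynomial

/-- Semialgebraic sets defined over `ℚ`: the finite unions of sets
`{p = 0, q₁ > 0, …, q_k > 0}`, where `p` and the `qᵢ` are polynomials with rational
coefficients. -/
def Semialgebraic {n : ℕ} (S : Set (Fin n → ℝ)) : Prop :=
  ∃ (m : ℕ) (P : Fin m → MvPolynomial (Fin n) ℚ) (G : Fin m → Finset (MvPolynomial (Fin n) ℚ)),
    S = {x : Fin n → ℝ | ∃ j : Fin m, (aeval x (P j) : ℝ) = 0 ∧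
      ∀ g ∈ G j, (0 : ℝ) < aeval x g}

/-- The binary quartic form with the coefficients `a`. -/
def quartic {R : Type} [CommRing R] (a : Fin 5 → R) (x : Fin 2 → R) : R :=
  a 0 * x 0 ^ 4 + a 1 * (x 0 ^ 3 * x 1) + a 2 * (x 0 ^ 2 * x 1 ^ 2) + a 3 * (x 0 * x 1 ^ 3) +
    a 4 * x 1 ^ 4

/-- The partial derivative of this form with respect to the `k`-th variable. -/
def partialDeriv {R : Type} [CommRing R] (a : Fin 5 → R) (x : Fin 2 → R) (k : Fin 2) : R :=
  ![4 * a 0 * x 0 ^ 3 + 3 * a 1 * (x 0 ^ 2 * x 1) + 2 * a 2 * (x 0 * x 1 ^ 2) + a 3 * x 1 ^ 3,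
    a 1 * x 0 ^ 3 + 2 * a 2 * (x 0 ^ 2 * x 1) + 3 * a 3 * (x 0 * x 1 ^ 2) + 4 * a 4 * x 1 ^ 3] k

/-- The form `∑ c_ij x₀^(4-i) x₁^i y₀^(4-j) y₁^j` of bidegree `(4, 4)`, as a quartic form in `x`. -/
def inX {R : Type} [CommRing R] (c : Fin 5 → Fin 5 → R) (y : Fin 2 → R) : Fin 5 → R :=
  fun i => quartic (c i) y

/-- The same form as a quartic form in `y`. -/
def inY {R : Type} [CommRing R] (c : Fin 5 → Fin 5 → R) (x : Fin 2 → R) : Fin 5 → R :=
  fun j => quartic (fun i => c i j) x

/-- The value of the form at `(x, y)`. -/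
def form {R : Type} [CommRing R] (c : Fin 5 → Fin 5 → R) (x y : Fin 2 → R) : R := quartic (inX c y) x

/-- The branch curve is smooth: the partial derivatives with respect to the four variables have no
common zero in `ℙ¹ × ℙ¹` over the algebraic closure. -/
def SmoothCurve (c : Fin 5 → Fin 5 → ℚ) : Prop :=
  ∀ x y : Fin 2 → AlgebraicClosure ℚ, x ≠ 0 → y ≠ 0 →
    (∀ k, partialDeriv (inX (fun i j => algebraMap ℚ (AlgebraicClosure ℚ) (c i j)) y) x k = 0) →
    (∀ k, partialDeriv (inY (fun i j => algebraMap ℚ (AlgebraicClosure ℚ) (c i j)) x) y k = 0) → False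

/-- The points `(w, s, t)` over `R` of the affine surface `w² = F(1, s; 1, t)`. -/
def surface {R : Type} [CommRing R] (c : Fin 5 → Fin 5 → R) : Set (Fin 3 → R) :=
  {u | u 0 ^ 2 = form c ![1, u 1] ![1, u 2]}

/-- The closure in `ℝᵐ` of a set of rational points. -/
def realClosure {m : ℕ} (D : Set (Fin m → ℚ)) : Set (Fin m → ℝ) :=
  closure {x : Fin m → ℝ | ∃ u ∈ D, x = fun k => (u k : ℝ)}

/-- The branch curve has only finitely many rational points (in the chart). -/
def FewBranchPoints (c : Fin 5 → Fin 5 → ℚ) : Prop :=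
  {z : ℚ × ℚ | form c ![1, z.1] ![1, z.2] = 0}.Finite

/-- **K3 double covers of `ℙ¹ × ℙ¹`.** -/
theorem result :
    (∀ c : Fin 5 → Fin 5 → ℚ, SmoothCurve c →
      -- (1) the points off the branch curve
      Semialgebraic (realClosure {u | u ∈ surface c ∧ u 0 ≠ 0}) ∧
      -- (2) all rational points
      (FewBranchPoints c → Semialgebraic (realClosure (surface c))) ∧
      -- (3) connected sets of real points
      (∃ (E₁ E₂ : Set ℚ) (T : Set (ℚ × ℚ)), E₁.Finite ∧ E₂.Finite ∧ T.Finite ∧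
        ∀ U : Set (Fin 3 → ℝ), IsPreconnected U →
          (∀ x ∈ U, x 0 ≠ 0 ∧ x ∈ surface (fun i j => (c i j : ℝ))) →
          U ⊆ realClosure (surface c) ∨
          ∀ u : Fin 3 → ℚ, (fun i => (u i : ℝ)) ∈ U → u 1 ∈ E₁ ∨ u 2 ∈ E₂ ∨ (u 1, u 2) ∈ T)) ∧
    -- (4) the values of rational functions on products
    (∀ (J κ : Type) [Finite J] [Finite κ] (c : J → Fin 5 → Fin 5 → ℚ), (∀ j, SmoothCurve (c j)) →
      ∀ (m : ℕ) (p : Fin m → MvPolynomial ((J × Fin 3) ⊕ κ) ℚ)
        (q : MvPolynomial ((J × Fin 3) ⊕ κ) ℚ),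
        Semialgebraic (closure {y : Fin m → ℝ | ∃ (x : J → Fin 3 → ℚ) (u : κ → ℚ),
          (∀ j, x j ∈ surface (c j) ∧ x j 0 ≠ 0) ∧ eval (Sum.elim (fun a => x a.1 a.2) u) q ≠ 0 ∧
          ∀ k, y k = ((eval (Sum.elim (fun a => x a.1 a.2) u) (p k) /
            eval (Sum.elim (fun a => x a.1 a.2) u) q : ℚ) : ℝ)}) ∧
        ((∀ j, FewBranchPoints (c j)) →
          Semialgebraic (closure {y : Fin m → ℝ | ∃ (x : J → Fin 3 → ℚ) (u : κ → ℚ),
            (∀ j, x j ∈ surface (c j)) ∧ eval (Sum.elim (fun a => x a.1 a.2) u) q ≠ 0 ∧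
            ∀ k, y k = ((eval (Sum.elim (fun a => x a.1 a.2) u) (p k) /
              eval (Sum.elim (fun a => x a.1 a.2) u) q : ℚ) : ℝ)}))) := by
  have h4 := Pool.Agent.Q35.TT.saw2
  -- the case of one surface and the coordinates
  have key : ∀ c : Fin 5 → Fin 5 → ℚ, SmoothCurve c →
      Semialgebraic (realClosure {u | u ∈ surface c ∧ u 0 ≠ 0}) ∧
      (FewBranchPoints c → Semialgebraic (realClosure (surface c))) := by
    intro c hc
    have h5 := h4 Unit Empty (fun _ => c) (fun _ => hc) 3 (fun k => X (Sum.inl ((), k))) 1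
    have e1 : {x : Fin 3 → ℝ | ∃ u ∈ {u | u ∈ surface c ∧ u 0 ≠ 0}, x = fun k => ((u k : ℚ) : ℝ)} =
        {y : Fin 3 → ℝ | ∃ (x : Unit → Fin 3 → ℚ) (u : Empty → ℚ),
          (∀ j, x j 0 ≠ 0 ∧ x j 0 ^ 2 = Pool.Agent.Q35.TT.F4 c ![1, x j 1] ![1, x j 2]) ∧
          eval (Sum.elim (fun a => x a.1 a.2) u) (1 : MvPolynomial ((Unit × Fin 3) ⊕ Empty) ℚ) ≠ 0 ∧
          ∀ k, y k = ((eval (Sum.elim (fun a => x a.1 a.2) u) (X (Sum.inl ((), k))) /
            eval (Sum.elim (fun a => x a.1 a.2) u)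
              (1 : MvPolynomial ((Unit × Fin 3) ⊕ Empty) ℚ) : ℚ) : ℝ)} := by
      ext y
      constructor
      · rintro ⟨u, ⟨hu, hu0⟩, rfl⟩
        refine ⟨fun _ => u, Empty.elim, fun _ => ⟨hu0, hu⟩, by simp, fun k => ?_⟩
        simp
      · rintro ⟨x, u, hx, -, hy⟩
        refine ⟨x (), ⟨(hx ()).2, (hx ()).1⟩, funext fun k => ?_⟩
        rw [hy k]
        simp
    have e2 : {x : Fin 3 → ℝ | ∃ u ∈ surface c, x = fun k => ((u k : ℚ) : ℝ)} =
        {y : Fin 3 → ℝ | ∃ (x : Unit → Fin 3 → ℚ) (u : Empty → ℚ),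
          (∀ j, x j 0 ^ 2 = Pool.Agent.Q35.TT.F4 c ![1, x j 1] ![1, x j 2]) ∧
          eval (Sum.elim (fun a => x a.1 a.2) u) (1 : MvPolynomial ((Unit × Fin 3) ⊕ Empty) ℚ) ≠ 0 ∧
          ∀ k, y k = ((eval (Sum.elim (fun a => x a.1 a.2) u) (X (Sum.inl ((), k))) /
            eval (Sum.elim (fun a => x a.1 a.2) u)
              (1 : MvPolynomial ((Unit × Fin 3) ⊕ Empty) ℚ) : ℚ) : ℝ)} := by
      ext y
      constructor
      · rintro ⟨u, hu, rfl⟩
        refine ⟨fun _ => u, Empty.elim, fun _ => hu, by simp, fun k => ?_⟩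
        simp
      · rintro ⟨x, u, hx, -, hy⟩
        refine ⟨x (), hx (), funext fun k => ?_⟩
        rw [hy k]
        simp
    refine ⟨?_, fun hb => ?_⟩
    · rw [realClosure, e1]
      exact h5.1
    · rw [realClosure, e2]
      exact h5.2 fun _ => hb
  refine ⟨fun c hc => ⟨(key c hc).1, (key c hc).2, ?_⟩, ?_⟩
  · obtain ⟨E₁, E₂, T, h1, h2, h3, h⟩ := Pool.Agent.Q35.TT.sac2 c hc
    refine ⟨E₁, E₂, T, h1, h2, h3, fun U hU hU2 => ?_⟩
    rcases h U hU hU2 with h6 | h6
    · left
      refine h6.trans (le_of_eq ?_)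
      rw [realClosure]
      congr 1
    · exact Or.inr h6
  · intro J κ _ _ c hc m p q
    obtain ⟨h5, h6⟩ := h4 J κ c hc m p q
    constructor
    · have e : {y : Fin m → ℝ | ∃ (x : J → Fin 3 → ℚ) (u : κ → ℚ),
          (∀ j, x j ∈ surface (c j) ∧ x j 0 ≠ 0) ∧ eval (Sum.elim (fun a => x a.1 a.2) u) q ≠ 0 ∧
          ∀ k, y k = ((eval (Sum.elim (fun a => x a.1 a.2) u) (p k) /
            eval (Sum.elim (fun a => x a.1 a.2) u) q : ℚ) : ℝ)} =
          {y : Fin m → ℝ | ∃ (x : J → Fin 3 → ℚ) (u : κ → ℚ),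
          (∀ j, x j 0 ≠ 0 ∧ x j 0 ^ 2 = Pool.Agent.Q35.TT.F4 (c j) ![1, x j 1] ![1, x j 2]) ∧
          eval (Sum.elim (fun a => x a.1 a.2) u) q ≠ 0 ∧
          ∀ k, y k = ((eval (Sum.elim (fun a => x a.1 a.2) u) (p k) /
            eval (Sum.elim (fun a => x a.1 a.2) u) q : ℚ) : ℝ)} := by
        ext y
        constructor
        · rintro ⟨x, u, hx, hu⟩
          exact ⟨x, u, fun j => ⟨(hx j).2, (hx j).1⟩, hu⟩
        · rintro ⟨x, u, hx, hu⟩
          exact ⟨x, u, fun j => ⟨(hx j).2, (hx j).1⟩, hu⟩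
      rw [e]
      exact h5
    · intro hb
      exact h6 hb

end Pool.Agent.Results.MP_42de19_nt.K3DoubleCovers
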