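import Pool.Agent.U199.RS.Gen
import Pool.Agent.U199.TW.All

/-!
# The semialgebraic form of Mazur's conjecture for twisted products (helper199)

Let `f_1(x_1), …, f_r(x_r)` be polynomials over `ℚ` in separate sets of variables. We consider the
varieties

  `X : w_i² = e_i f_1(x_1)^(a_i1) ⋯ f_r(x_r)^(a_ir)`,  `i = 1, …, s`,

with arbitrary `e_i ∈ ℚ`, exponents `a_ib` and `s`. The most important example is
`X_e : w² = e f_1(x_1) ⋯ f_r(x_r)`. It is birational to a quadratic twist of the quotient of the product
of the double covers `Y_b : w_b² = f_b(x_b)` by a group `(ℤ/2)^(r-1)` of products of the covering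
involutions. The rational points of `X` do not lift to rational points of the product of the `Y_b`, but
to rational points of products of quadratic twists of the `Y_b` which depend on the point. Each `f_b` is
one of the following polynomials (`Factor`), or such a polynomial multiplied by the square of an
arbitrary polynomial:

(a) A chart of a form of multidegree `(4, …, 4)` on `(ℙ¹)^m` with smooth divisor `B_b`; then `Y_b` is a
curve of genus one for `m = 1`, a K3 surface for `m = 2`, a Calabi–Yau variety in general. For `m ≥ 3`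
we assume that there are only finitely many special planes: a plane through a point off `B_b`, in the
directions of a set `J` of factors, `∅ ≠ J ≠ {1, …, m}`, is special if on it the partial derivatives of
the form in the other directions are constant multiples of the form.

(b) A chart of a smooth quartic form in at least three variables; then `Y_b` is a del Pezzo surface of
degree two, a quartic double solid etc.

(c) A polynomial of degree at most two on all lines in the directions of a basis, for example a
polynomial of degree at most two in each variable, with any singularities.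

(d) An arbitrary polynomial of degree at most four in one variable.

For example `X_e` is a model of a Kummer surface `(C × C')/±`, of a Borcea–Voisin threefold
`(C × S)/±` or of one of the fourfolds `(S × S')/±` with curves `C`, `C'` of genus one and K3 surfaces
`S`, `S'`, or a quadratic twist of it, or the same with del Pezzo surfaces instead of K3 surfaces.

Moreover let `A ⊆ ℚ^r` be ANY set which is stable under multiplication of the coordinates by nonzero
squares, that is an arbitrary family of quadratic twists. We consider the rational points of `X` with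
`(f_1(x_1), …, f_r(x_r)) ∈ A`. For `A = ℚ^r` these are all rational points of `X`; for `s = 0` they
are all `x` whose values have a class in `A`. For example, let `Y` be any variety over `ℚ` with a
function `g`; for `s = 0`, `r = 1` and `A = {g(y) c² : y ∈ Y(ℚ), c ∈ ℚˣ}` we get the image in the
`x`-space of the set of the rational points of the variety `f(x) = g(y) c²`, `c ≠ 0`.

(1) There is ONE finite set `E` of coordinate planes of the `x`-space such that for ALL `s`, `e`, `a`
and `A` each of these rational points with `f_b(x_b) ≠ 0` for all `b` lies over a plane `q ∈ E` such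
that each connected set of real points of `X` over `q`, with all `f_b(x_b) ≠ 0`, which contains the
rational point, is contained in the closure of the set of these rational points. So this closure is,
in the set of the real points with all `f_b(x_b) ≠ 0`, a union of connected components of the sections
of `X` by the planes in `E`; and each rational point outside of those planes in `E` which are not the
whole space has a real neighbourhood in it.

(2) The closure of the set of these rational points with all `f_b(x_b) ≠ 0` is semialgebraic over `ℚ`.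

(3) If the closures of the sets of the rational zeros of the `f_b` in at least two variables are
semialgebraic over `ℚ`, then so is the closure of the set of all these rational points. This holds in
particular if these `f_b` have only finitely many rational zeros (for `m = 2` in (a) and (b) the curves
have genus `9` and `3`, and this is always true by Faltings's theorem, which is not used here), and
unconditionally if all `f_b` are polynomials in one variable.

(4) The closures of the sets of the values of rational functions on products of such sets of rational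
points and affine spaces are semialgebraic over `ℚ`.
-/

set_option autoImplicit false

namespace Pool.Agent.Results.MP_42de19_nt.TwistedProducts

open MvPolynomial

/-- Semialgebraic sets defined over `ℚ`: the finite unions of sets
`{p = 0, q₁ > 0, …, q_k > 0}`, where `p` and the `qᵢ` are polynomials with rational coefficients. -/
def Semialgebraic {κ : Type} (S : Set (κ → ℝ)) : Prop :=
  ∃ (k : ℕ) (P : Fin k → MvPolynomial κ ℚ) (G : Fin k → Finset (MvPolynomial κ ℚ)),
    S = {x | ∃ j, (aeval x (P j) : ℝ) = 0 ∧ ∀ g ∈ G j, (0 : ℝ) < aeval x g}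

/-- The closure in the real affine space of a set of rational points. -/
def realClosure {κ : Type} (D : Set (κ → ℚ)) : Set (κ → ℝ) :=
  closure {x | ∃ u ∈ D, x = fun k => (u k : ℝ)}

/-- `F` is a form of degree `4` in each pair of variables `(j, 0)`, `(j, 1)`, the coordinates of the
`j`-th factor of `(ℙ¹)ⁿ`. -/
def IsForm {n : ℕ} (F : MvPolynomial (Fin n × Fin 2) ℚ) : Prop :=
  ∀ m ∈ F.support, ∀ j, m (j, 0) + m (j, 1) = 4

/-- The divisor `F = 0` in `(ℙ¹)ⁿ` is smooth. -/
def Smooth {n : ℕ} (F : MvPolynomial (Fin n × Fin 2) ℚ) : Prop :=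
  ∀ x : Fin n × Fin 2 → AlgebraicClosure ℚ, (∀ j, ∃ b, x (j, b) ≠ 0) →
    ∃ p, aeval x (pderiv p F) ≠ 0

/-- The plane through `X` in the directions of `J` is special: on it the derivatives of `F` in the
other directions are constant multiples of `F`. -/
def Special {n : ℕ} (F : MvPolynomial (Fin n × Fin 2) ℚ) (X : Fin n × Fin 2 → ℚ)
    (J : Finset (Fin n)) : Prop :=
  ∀ k, k ∉ J → ∀ b, ∃ c : ℚ, ∀ Y : Fin n × Fin 2 → ℚ, (∀ j, j ∉ J → ∀ b, Y (j, b) = X (j, b)) →
    eval Y (pderiv (k, b) F) = c * eval Y F

/-- There are only finitely many special planes through rational points off the divisor `F = 0`. -/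
def FewSpecial {n : ℕ} (F : MvPolynomial (Fin n × Fin 2) ℚ) : Prop :=
  ∀ J : Finset (Fin n), J.Nonempty → J ≠ Finset.univ →
    {P : Set (Fin n × Fin 2 → ℚ) | ∃ X, eval X F ≠ 0 ∧ Special F X J ∧
      P = {Y | ∀ j, j ∉ J → ∃ a : ℚ, a ≠ 0 ∧ ∀ b, Y (j, b) = a * X (j, b)}}.Finite

/-- The affine chart of `(ℙ¹)ⁿ` in which the coordinates `(j, ε j)` are `1`. -/
noncomputable def chart {n : ℕ} (F : MvPolynomial (Fin n × Fin 2) ℚ) (ε : Fin n → Fin 2) :
    MvPolynomial (Fin n) ℚ :=
  aeval (fun p : Fin n × Fin 2 => if p.2 = ε p.1 then 1 else X p.1) F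

/-- `F` is a form of degree `4` with smooth zero set in the projective space. -/
def SmoothQuartic {n : ℕ} (F : MvPolynomial (Fin (n + 1)) ℚ) : Prop :=
  F.IsHomogeneous 4 ∧ ∀ y : Fin (n + 1) → ℂ,
    (∀ i, eval y (pderiv i (map (algebraMap ℚ ℂ) F)) = 0) → y = 0

/-- The affine chart of `ℙⁿ` in which the coordinate `p` is `1`. -/
noncomputable def dehomogenise {n : ℕ} (F : MvPolynomial (Fin (n + 1)) ℚ) (p : Fin (n + 1)) :
    MvPolynomial (Fin n) ℚ :=
  aeval (Fin.insertNth (α := fun _ => MvPolynomial (Fin n) ℚ) p 1 X) F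

/-- The polynomial `f` has degree at most two on all lines of direction `v`. -/
def DegreeTwo {n : ℕ} (f : MvPolynomial (Fin n) ℚ) (v : Fin n → ℚ) : Prop :=
  ∀ z : Fin n → ℚ, (aeval (fun k => Polynomial.C (z k) + Polynomial.C (v k) * Polynomial.X) f :
    Polynomial ℚ).natDegree ≤ 2

/-- The factors. -/
inductive Factor : ∀ n : ℕ, MvPolynomial (Fin n) ℚ → Prop
  | multiform {n : ℕ} (F : MvPolynomial (Fin n × Fin 2) ℚ) (ε : Fin n → Fin 2) : IsForm F →
      Smooth F → n ≤ 2 ∨ FewSpecial F → Factor n (chart F ε)
  | quartic {n : ℕ} (F : MvPolynomial (Fin (n + 1)) ℚ) (p : Fin (n + 1)) : 2 ≤ n →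
      SmoothQuartic F → Factor n (dehomogenise F p)
  | quadratic {n : ℕ} (f : MvPolynomial (Fin n) ℚ) (b : Fin n → Fin n → ℚ) :
      LinearIndependent ℚ b → (∀ k, DegreeTwo f (b k)) → Factor n f
  | oneVariable (f : MvPolynomial (Fin 1) ℚ) : f.degreeOf 0 ≤ 4 → Factor 1 f
  | square {n : ℕ} (f g : MvPolynomial (Fin n) ℚ) : Factor n f → Factor n (g ^ 2 * f)

section

variable {r : ℕ} {m : Fin r → ℕ} (f : ∀ b : Fin r, MvPolynomial (Fin (m b)) ℚ)

/-- The value of the factor `f b` at the coordinates in the block `b`. -/
noncomputable def value (z : (Σ b, Fin (m b)) → ℚ) (b : Fin r) : ℚ := eval (fun i => z ⟨b, i⟩) (f b)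

/-- The set is stable under multiplication of the coordinates by nonzero squares. -/
def SquareStable (A : Set (Fin r → ℚ)) : Prop :=
  ∀ t ∈ A, ∀ c : Fin r → ℚ, (∀ b, c b ≠ 0) → (fun b => c b ^ 2 * t b) ∈ A

variable {s : ℕ} (e : Fin s → ℚ) (a : Fin s → Fin r → ℕ)

/-- The product `e_i ∏ f_b(x_b)^(a_ib)`. -/
noncomputable def rhs (i : Fin s) : MvPolynomial (Σ b, Fin (m b)) ℚ :=
  C (e i) * ∏ b, rename (Sigma.mk b) (f b) ^ a i b

/-- The rational points `(w, x)` of the variety `w_i² = e_i ∏ f_b(x_b)^(a_ib)`, `i < s`, for which the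
vector of the values `f_b(x_b)` is in `A`. -/
def points (A : Set (Fin r → ℚ)) : Set (Fin s ⊕ (Σ b, Fin (m b)) → ℚ) :=
  {u | value f (fun k => u (Sum.inr k)) ∈ A ∧
    ∀ i, u (Sum.inl i) ^ 2 = eval (fun k => u (Sum.inr k)) (rhs f e a i)}

/-- The points at which no factor vanishes. -/
def openPoints (A : Set (Fin r → ℚ)) : Set (Fin s ⊕ (Σ b, Fin (m b)) → ℚ) :=
  {u | (∀ b, value f (fun k => u (Sum.inr k)) b ≠ 0) ∧ u ∈ points f e a A}

/-- The real points over the coordinate plane `q`, at which no factor vanishes. The plane is given by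
the set `q.1` of the free coordinates and the values `q.2` of the other ones. -/
def realPoints (q : Set (Σ b, Fin (m b)) × ((Σ b, Fin (m b)) → ℚ)) :
    Set (Fin s ⊕ (Σ b, Fin (m b)) → ℝ) :=
  {x | (∀ b, (aeval (fun i => x (Sum.inr ⟨b, i⟩)) (f b) : ℝ) ≠ 0) ∧
    (∀ k, k ∉ q.1 → x (Sum.inr k) = (q.2 k : ℝ)) ∧
    ∀ i, x (Sum.inl i) ^ 2 = aeval (fun k => x (Sum.inr k)) (rhs f e a i)}

end

/-- The rational zeros. -/
def zeros {n : ℕ} (f : MvPolynomial (Fin n) ℚ) : Set (Fin n → ℚ) := {z | eval z f = 0}

/-- The values of the rational functions `p k / q` at the points of the product of the sets `D j` and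
an affine space. -/
def values {J κ μ : Type} {ι : J → Type} (D : ∀ j, Set (ι j → ℚ))
    (p : μ → MvPolynomial ((Σ j, ι j) ⊕ κ) ℚ) (q : MvPolynomial ((Σ j, ι j) ⊕ κ) ℚ) : Set (μ → ℝ) :=
  {y | ∃ (x : ∀ j, ι j → ℚ) (u : κ → ℚ), (∀ j, x j ∈ D j) ∧
    eval (Sum.elim (fun a => x a.1 a.2) u) q ≠ 0 ∧
    ∀ k, y k = ((eval (Sum.elim (fun a => x a.1 a.2) u) (p k) /
      eval (Sum.elim (fun a => x a.1 a.2) u) q : ℚ) : ℝ)}

open Pool.Agent.U199.RS Pool.Agent.U199.TW Pool.Agent.TH729.SQ Pool.Agent.H581R2

lemma rb_factor {n : ℕ} {f : MvPolynomial (Fin n) ℚ} (h : Factor n f) : RB f := by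
  induction h with
  | multiform F ε hF hs hn =>
    obtain ⟨c1, c2, -, -, c5, -⟩ := Pool.Agent.Q182.TT.CHF.chf ℚ _ F hF ε
    exact rb_base _ c1 (c2 hs) (c5 (fs_of F hF hs hn))
  | quartic F p hn hF => exact rb_quart hF.1 hF.2 hn p
  | quadratic f b hb hd => exact rb_dir b hb hd
  | oneVariable f hf => exact rb_one hf
  | square f g _ ih => exact rb_sq g ih

lemma SA_of {κ : Type} [Finite κ] {S : Set (κ → ℝ)} (h : Semialgebraic S) : SA S := by
  obtain ⟨k, P, G, rfl⟩ := h
  refine SAP.exists_fin (p := fun j x => (aeval x (P j) : ℝ) = 0 ∧ ∀ g ∈ G j, (0 : ℝ) < aeval x g)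
    fun j => SAP.and (SAP.eq_zero (PF.aeval (P j))) ?_
  have : SAP fun x : κ → ℝ => ∀ g : G j, (0 : ℝ) < aeval x g.1 :=
    SAP.forall_fin fun g => SAP.pos (PF.aeval g.1)
  exact SAP.congr this fun x => ⟨fun h g => h g.1 g.2, fun h g hg => h ⟨g, hg⟩⟩

lemma fin_semi {κ : Type} [Finite κ] {D : Set (κ → ℚ)} (hD : D.Finite) :
    Semialgebraic (realClosure D) := semialg_of (Pool.Agent.Y718.fin_SA hD)

lemma zero_SA {n : ℕ} (f : MvPolynomial (Fin n) ℚ)
    (h : 2 ≤ n → Semialgebraic (realClosure (zeros f))) : SA (closure (rl (zeros f))) := by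
  by_cases hb : 2 ≤ n
  · exact SA_of (h hb)
  · exact zero_small (by omega) f

/-- **The real closure of the set of the rational points of twisted products.** -/
theorem result :
    (∀ (r : ℕ) (m : Fin r → ℕ) (f : ∀ b : Fin r, MvPolynomial (Fin (m b)) ℚ),
      (∀ b, Factor (m b) (f b)) →
      -- (1) finitely many coordinate planes for all twists, and connected sets
      (∃ E : Set (Set (Σ b, Fin (m b)) × ((Σ b, Fin (m b)) → ℚ)), E.Finite ∧
        ∀ (s : ℕ) (e : Fin s → ℚ) (a : Fin s → Fin r → ℕ) (A : Set (Fin r → ℚ)), SquareStable A →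
        ∀ u ∈ openPoints f e a A, ∃ q ∈ E, (∀ k, k ∉ q.1 → u (Sum.inr k) = q.2 k) ∧
          ∀ S : Set (Fin s ⊕ (Σ b, Fin (m b)) → ℝ), IsPreconnected S → (fun k => (u k : ℝ)) ∈ S →
            S ⊆ realPoints f e a q → S ⊆ realClosure (openPoints f e a A)) ∧
      ∀ (s : ℕ) (e : Fin s → ℚ) (a : Fin s → Fin r → ℕ) (A : Set (Fin r → ℚ)), SquareStable A →
        -- (2) the rational points at which no factor vanishes
        Semialgebraic (realClosure (openPoints f e a A)) ∧
        -- (3) all rational points
        ((∀ b, 2 ≤ m b → Semialgebraic (realClosure (zeros (f b)))) →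
          Semialgebraic (realClosure (points f e a A))) ∧
        ((∀ b, 2 ≤ m b → (zeros (f b)).Finite) →
          Semialgebraic (realClosure (points f e a A)))) ∧
    -- (4) the values of rational functions on products
    (∀ (J κ μ : Type) [Finite J] [Finite κ] [Finite μ] (r s : J → ℕ) (m : ∀ j, Fin (r j) → ℕ)
      (f : ∀ (j : J) (b : Fin (r j)), MvPolynomial (Fin (m j b)) ℚ) (e : ∀ j, Fin (s j) → ℚ)
      (a : ∀ j, Fin (s j) → Fin (r j) → ℕ) (A : ∀ j, Set (Fin (r j) → ℚ)),
      (∀ j b, Factor (m j b) (f j b)) → (∀ j, SquareStable (A j)) →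
      ∀ (p : μ → MvPolynomial ((Σ j, Fin (s j) ⊕ (Σ b, Fin (m j b))) ⊕ κ) ℚ)
        (q : MvPolynomial ((Σ j, Fin (s j) ⊕ (Σ b, Fin (m j b))) ⊕ κ) ℚ),
        Semialgebraic (closure (values (fun j => openPoints (f j) (e j) (a j) (A j)) p q)) ∧
        ((∀ j b, 2 ≤ m j b → Semialgebraic (realClosure (zeros (f j b)))) →
          Semialgebraic (closure (values (fun j => points (f j) (e j) (a j) (A j)) p q)))) := by
  refine ⟨fun r m f hf => ⟨?_, fun s e a A hA => ⟨?_, ?_, ?_⟩⟩, ?_⟩
  · obtain ⟨E, hE, h⟩ := re_prod fun b => rb_factor (hf b)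
    exact ⟨E, hE, fun s e a A hA u hu => po_conn hE h hA hu⟩
  · exact semialg_of (po_SA f e a (fun b => rb_factor (hf b)) hA)
  · exact fun hz => semialg_of (pt_SA f e a (fun b => rb_factor (hf b))
      (fun b => zero_SA (f b) (hz b)) hA)
  · exact fun hz => semialg_of (pt_SA f e a (fun b => rb_factor (hf b))
      (fun b => zero_SA (f b) fun hb => fin_semi (hz b hb)) hA)
  · intro J κ μ _ _ _ r s m f e a A hf hA p q
    exact ⟨semialg_of (val_SA _ (fun j => po_SA (f j) (e j) (a j) (fun b => rb_factor (hf j b))
        (hA j)) p q),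
      fun hz => semialg_of (val_SA _ (fun j => pt_SA (f j) (e j) (a j)
        (fun b => rb_factor (hf j b)) (fun b => zero_SA (f j b) (hz j b)) (hA j)) p q)⟩

end Pool.Agent.Results.MP_42de19_nt.TwistedProducts
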